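import Mathlib

/-!
# Edge colourings of hypercubes whose antipodal geodesics change colour often

For all `a ≥ 1`, `b ≥ 0` and `n ≥ 7 a + b` there is a colouring of the edges of `Q_n` with
`r = 3 a + b` colours such that every geodesic path between antipodal vertices has at least
`4 a + b - 1` colour changes.  For `a = 1` these are `r` colour changes; so for every `r ≥ 3` and
every `n ≥ r + 4` there is an `r`-colouring of `E(Q_n)` such that no antipodal geodesic has at most
`r - 1` colour changes.

Outline.  The case `a = 1`, `b = 0`, `n = 7`: the colour of an edge of one of the directions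
`1, 2, 3, 4` depends on the direction and on the state `(x_5 + x_7, x_6 + x_7)` of its ends, and
the directions `5, 6, 7`, which change the state, have one colour each (`F`).  This was found by a
computer; the check is a search through the permutations of the seven directions (`lb`).
In general the coordinates are divided into `a` blocks of length `7` with disjoint sets of three
colours, `b` coordinates with a colour of their own, and the rest.  The number of monochromatic
runs of a geodesic is at least the sum of the numbers for the classes of colours (`sum_runs_le`).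
-/

set_option autoImplicit false

namespace Pool.Agent.Results.MP_49ab16_co.ManyChanges

/-- the hypercube graph `Q_n` -/
def Q (n : ℕ) : SimpleGraph (Fin n → Bool) where
  Adj u v := hammingDist u v = 1
  symm := ⟨fun u v h => by rwa [hammingDist_comm]⟩
  loopless := ⟨fun u h => by simp at h⟩

/-- the number of colour changes in a sequence of colours -/
def changes {α : Type*} [DecidableEq α] : List α → ℕ
  | x :: y :: l => (if x = y then 0 else 1) + changes (y :: l)
  | _ => 0

/-- the number of monochromatic runs in a sequence of colours -/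
def runs : List ℕ → ℕ
  | [] => 0
  | x :: l => changes (x :: l) + 1

theorem changes_cons (x : ℕ) (l : List ℕ) :
    changes (x :: l) = changes l + (if l.head? = some x ∨ l = [] then 0 else 1) := by
  cases l with
  | nil => simp [changes]
  | cons y l =>
    by_cases h : x = y
    · subst h; simp [changes]
    · have h' : ¬ y = x := fun e => h e.symm
      simp [changes, h, h', add_comm]

theorem runs_cons (x : ℕ) (l : List ℕ) :
    runs (x :: l) = runs l + (if l.head? = some x then 0 else 1) := by
  cases l with
  | nil => simp [runs, changes]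
  | cons y l =>
    by_cases h : x = y
    · subst h; simp [runs, changes]
    · have h' : ¬ y = x := fun e => h e.symm
      simp [runs, changes, h, h']
      omega

theorem runs_pos {x : ℕ} {l : List ℕ} (h : x ∈ l) : 1 ≤ runs l := by
  cases l with
  | nil => simp at h
  | cons y l => simp [runs]

/-- inserting elements does not decrease the number of changes -/
theorem changes_sublist {l₁ l₂ : List ℕ} (h : l₁.Sublist l₂) (a : ℕ) :
    changes (a :: l₁) ≤ changes (a :: l₂) := by
  induction h generalizing a with
  | slnil => exact le_rfl
  | @cons l₁ l₂ b h ih =>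
    have h1 := ih b
    have h2 : changes (a :: l₁) ≤ (if a = b then 0 else 1) + changes (b :: l₁) := by
      cases l₁ with
      | nil => simp [changes]
      | cons c l =>
        simp only [changes]
        by_cases hab : a = b
        · subst hab; simp
        · simp only [hab, if_false]
          split_ifs <;> omega
    have h3 : changes (a :: b :: l₂) = (if a = b then 0 else 1) + changes (b :: l₂) := rfl
    omega
  | @cons_cons l₁ l₂ b h ih =>
    have h1 := ih b
    have h2 : changes (a :: b :: l₁) = (if a = b then 0 else 1) + changes (b :: l₁) := rfl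
    have h3 : changes (a :: b :: l₂) = (if a = b then 0 else 1) + changes (b :: l₂) := rfl
    omega

theorem runs_sublist {l₁ l₂ : List ℕ} (h : l₁.Sublist l₂) : runs l₁ ≤ runs l₂ := by
  induction h with
  | slnil => exact le_rfl
  | @cons l₁ l₂ b h ih =>
    rw [runs_cons]
    omega
  | @cons_cons l₁ l₂ b h ih =>
    have h1 := changes_sublist h b
    simp only [runs]
    omega

/-- the runs of the classes of colours -/
theorem sum_runs_le (κ : ℕ → ℕ) (S : Finset ℕ) (l : List ℕ) :
    ∑ k ∈ S, runs (l.filter (fun x => κ x = k)) ≤ runs l := by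
  induction l with
  | nil => simp [runs]
  | cons x l ih =>
    have h1 : ∀ k ∈ S, runs ((x :: l).filter (fun y => κ y = k)) ≤
        runs (l.filter (fun y => κ y = k)) +
          (if k = κ x then (if l.head? = some x then 0 else 1) else 0) := by
      intro k _
      by_cases hk : k = κ x
      · subst hk
        rw [List.filter_cons_of_pos (by simp), runs_cons]
        have h2 : l.head? = some x → (l.filter (fun y => κ y = κ x)).head? = some x := by
          intro h
          cases l with
          | nil => simp at h
          | cons y l =>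
            rw [List.head?_cons, Option.some.injEq] at h
            subst h
            simp
        by_cases h3 : l.head? = some x
        · simp [h3, h2 h3]
        · simp only [h3, if_false, if_true]
          split_ifs <;> omega
      · have hk' : ¬ κ x = k := fun e => hk e.symm
        rw [List.filter_cons_of_neg (by simpa using hk')]
        omega
    refine (Finset.sum_le_sum h1).trans ?_
    rw [Finset.sum_add_distrib, Finset.sum_ite_eq', runs_cons]
    split_ifs <;> omega

/-! ### The colouring of `Q_7` -/

/-- the colour of an edge: the state of its ends is `(x, y)`, the direction is `t` -/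
def F (x y : Bool) (t : ℕ) : ℕ :=
  match t, x, y with
  | 0, false, false => 0
  | 0, true, false => 1
  | 0, false, true => 2
  | 0, true, true => 0
  | 1, false, false => 0
  | 1, true, false => 2
  | 1, false, true => 1
  | 1, true, true => 1
  | 2, false, false => 2
  | 2, true, false => 0
  | 2, false, true => 2
  | 2, true, true => 1
  | 3, false, false => 1
  | 3, true, false => 2
  | 3, false, true => 0
  | 3, true, true => 2
  | 4, _, _ => 1
  | 5, _, _ => 2
  | _, _, _ => 0

/-- the change of the state -/
def sx (x : Bool) (t : ℕ) : Bool := if t = 4 ∨ t = 6 then !x else x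
def sy (y : Bool) (t : ℕ) : Bool := if t = 5 ∨ t = 6 then !y else y

/-- the colours along a sequence of directions -/
def cs : Bool → Bool → List ℕ → List ℕ
  | _, _, [] => []
  | x, y, t :: ts => F x y t :: cs (sx x t) (sy y t) ts

/-- every order of the directions in `D` has at least `need` changes after the colour `last` -/
def lb : ℕ → Bool → Bool → List ℕ → ℕ → ℕ → Bool
  | 0, _, _, _, _, need => need == 0
  | k + 1, x, y, D, last, need => need == 0 || (!D.isEmpty && D.all fun t =>
      lb k (sx x t) (sy y t) (D.erase t) (F x y t) (if last = F x y t then need else need - 1))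

theorem lb_correct : ∀ (k : ℕ) (x y : Bool) (D : List ℕ) (last need : ℕ),
    lb k x y D last need = true → ∀ ds : List ℕ, ds.Perm D → need ≤ changes (last :: cs x y ds)
  | 0, x, y, D, last, need, h, ds, _ => by
    simp only [lb, beq_iff_eq] at h
    omega
  | k + 1, x, y, D, last, need, h, ds, hp => by
    simp only [lb, Bool.or_eq_true, beq_iff_eq, Bool.and_eq_true, List.all_eq_true] at h
    rcases h with h | ⟨h1, h2⟩
    · omega
    · cases ds with
      | nil =>
        have : D = [] := hp.symm.eq_nil
        subst this
        simp at h1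
      | cons t ts =>
        have ht : t ∈ D := hp.subset (by simp)
        have h3 := lb_correct k _ _ _ _ _ (h2 t ht) ts (by
          have := hp.erase t
          rwa [List.erase_cons_head] at this)
        have h4 : changes (last :: cs x y (t :: ts)) = (if last = F x y t then 0 else 1) +
          changes (F x y t :: cs (sx x t) (sy y t) ts) := rfl
        rw [h4]
        split_ifs at h3 ⊢ <;> omega

theorem lb_check : ∀ x y : Bool, lb 7 x y (List.range 7) 3 4 = true := by
  decide +kernel

theorem F_lt (x y : Bool) (t : ℕ) : F x y t < 3 := by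
  unfold F
  split <;> omega

theorem runs_cs (x y : Bool) (ds : List ℕ) (h : ds.Perm (List.range 7)) : 4 ≤ runs (cs x y ds) := by
  have h1 := lb_correct _ _ _ _ _ _ (lb_check x y) ds h
  cases ds with
  | nil => simp [cs, changes] at h1
  | cons t ts =>
    have h2 : changes (3 :: cs x y (t :: ts)) = (if 3 = F x y t then 0 else 1) +
      changes (cs x y (t :: ts)) := rfl
    have h3 : runs (cs x y (t :: ts)) = changes (cs x y (t :: ts)) + 1 := rfl
    rw [h2, if_neg (by have := F_lt x y t; omega)] at h1
    omega

/-! ### The colouring of `Q_n` -/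

theorem F_const {t : ℕ} (h : 4 ≤ t) (x y x' y' : Bool) : F x y t = F x' y' t := by
  match t, h with
  | 4, _ => rfl
  | 5, _ => rfl
  | t + 6, _ => rfl

/-- the state of the block `j` -/
def X (j : ℕ) (V : ℕ → Bool) : Bool := xor (V (7 * j + 4)) (V (7 * j + 6))
def Y (j : ℕ) (V : ℕ → Bool) : Bool := xor (V (7 * j + 5)) (V (7 * j + 6))

/-- the colour of the edge of direction `d` at the vertex `V` -/
def gcol (a b : ℕ) (V : ℕ → Bool) (d : ℕ) : ℕ :=
  if d < 7 * a then 3 * (d / 7) + F (X (d / 7) V) (Y (d / 7) V) (d % 7)
  else if d < 7 * a + b then 3 * a + (d - 7 * a) else 0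

/-- the other end of the edge -/
def flipN (V : ℕ → Bool) (d : ℕ) : ℕ → Bool := fun m => if m = d then !V m else V m

theorem X_flip (j d : ℕ) (V : ℕ → Bool) (h : d / 7 = j) :
    X j (flipN V d) = sx (X j V) (d % 7) ∧ Y j (flipN V d) = sy (Y j V) (d % 7) := by
  have hd : d = 7 * j + d % 7 := by omega
  have hlt : d % 7 < 7 := Nat.mod_lt _ (by norm_num)
  obtain ⟨t, ht⟩ : ∃ t, t = d % 7 := ⟨_, rfl⟩
  rw [← ht] at hd hlt ⊢
  subst hd
  unfold X Y flipN sx sy
  have e : ∀ k, (7 * j + k = 7 * j + t) ↔ k = t := fun k => by omega
  simp only [e]
  interval_cases t <;> simp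

theorem X_flip_ne (j d : ℕ) (V : ℕ → Bool) (h : d / 7 ≠ j) :
    X j (flipN V d) = X j V ∧ Y j (flipN V d) = Y j V := by
  unfold X Y flipN
  have e4 : 7 * j + 4 ≠ d := by omega
  have e5 : 7 * j + 5 ≠ d := by omega
  have e6 : 7 * j + 6 ≠ d := by omega
  simp [e4, e5, e6]

/-- the colours along a sequence of directions -/
def colseq (a b : ℕ) : (ℕ → Bool) → List ℕ → List ℕ
  | _, [] => []
  | V, d :: ds => gcol a b V d :: colseq a b (flipN V d) ds

/-- the class of a colour -/
def κ (a c : ℕ) : ℕ := if c < 3 * a then c / 3 else c - 2 * a

theorem block_sublist (a b j : ℕ) (hj : j < a) (ds : List ℕ) : ∀ V : ℕ → Bool,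
    ((cs (X j V) (Y j V) ((ds.filter (fun d => d / 7 = j)).map (fun d => d % 7))).map
      (fun c => 3 * j + c)).Sublist ((colseq a b V ds).filter (fun c => κ a c = j)) := by
  induction ds with
  | nil => intro V; simp [cs, colseq]
  | cons d ds ih =>
    intro V
    by_cases h : d / 7 = j
    · have h1 := ih (flipN V d)
      obtain ⟨h2, h3⟩ := X_flip j d V h
      rw [h2, h3] at h1
      have hda : d < 7 * a := by omega
      have h4 : gcol a b V d = 3 * j + F (X j V) (Y j V) (d % 7) := by
        unfold gcol
        rw [if_pos hda, h]
      have h5 : κ a (3 * j + F (X j V) (Y j V) (d % 7)) = j := by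
        have := F_lt (X j V) (Y j V) (d % 7)
        unfold κ
        rw [if_pos (by omega)]
        omega
      rw [List.filter_cons_of_pos (by simpa using h)]
      show (List.map _ (cs _ _ ((d % 7) :: _))).Sublist ((gcol a b V d :: colseq a b (flipN V d) ds).filter _)
      rw [h4, List.filter_cons_of_pos (by simpa using h5)]
      exact h1.cons_cons _
    · have h1 := ih (flipN V d)
      obtain ⟨h2, h3⟩ := X_flip_ne j d V h
      rw [h2, h3] at h1
      rw [List.filter_cons_of_neg (by simpa using h)]
      show List.Sublist _ ((gcol a b V d :: colseq a b (flipN V d) ds).filter _)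
      by_cases h6 : κ a (gcol a b V d) = j
      · rw [List.filter_cons_of_pos (by simpa using h6)]
        exact h1.cons _
      · rw [List.filter_cons_of_neg (by simpa using h6)]
        exact h1

theorem changes_map {α β : Type*} [DecidableEq α] [DecidableEq β] {f : α → β}
    (hf : Function.Injective f) : ∀ l : List α, changes (l.map f) = changes l
  | [] => rfl
  | [_] => rfl
  | x :: y :: l => by
    have h := changes_map hf (y :: l)
    simp only [List.map_cons] at h ⊢
    simp only [changes, hf.eq_iff]
    rw [h]

theorem runs_map {f : ℕ → ℕ} (hf : Function.Injective f) (l : List ℕ) :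
    runs (l.map f) = runs l := by
  cases l with
  | nil => rfl
  | cons x l =>
    have h := changes_map hf (x :: l)
    simp only [List.map_cons] at h ⊢
    simp only [runs]
    rw [h]

theorem mem_colseq (a b d : ℕ) (ds : List ℕ) : ∀ V : ℕ → Bool, d ∈ ds →
    ∃ V', gcol a b V' d ∈ colseq a b V ds := by
  induction ds with
  | nil => intro V h; simp at h
  | cons e ds ih =>
    intro V h
    rcases List.mem_cons.1 h with h | h
    · subst h
      exact ⟨V, by simp [colseq]⟩
    · obtain ⟨V', hV'⟩ := ih (flipN V e) h
      exact ⟨V', by simp [colseq, hV']⟩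

theorem runs_colseq (a b n : ℕ) (hn : 7 * a + b ≤ n) (V : ℕ → Bool) (ds : List ℕ)
    (hnd : ds.Nodup) (hall : ∀ m < n, m ∈ ds) : 4 * a + b ≤ runs (colseq a b V ds) := by
  refine le_trans ?_ (sum_runs_le (κ a) (Finset.range (a + b)) _)
  rw [Finset.sum_range_add]
  refine Nat.add_le_add ?_ ?_
  · have h1 : ∀ j ∈ Finset.range a, 4 ≤ runs ((colseq a b V ds).filter (fun c => κ a c = j)) := by
      intro j hj
      rw [Finset.mem_range] at hj
      refine le_trans ?_ (runs_sublist (block_sublist a b j hj ds V))
      rw [runs_map (fun x y h => by simpa using h)]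
      apply runs_cs
      rw [List.perm_ext_iff_of_nodup _ List.nodup_range]
      · intro t
        simp only [List.mem_map, List.mem_filter, decide_eq_true_eq, List.mem_range]
        constructor
        · rintro ⟨d, -, rfl⟩
          exact Nat.mod_lt _ (by norm_num)
        · intro ht
          exact ⟨7 * j + t, ⟨hall _ (by omega), by omega⟩, by omega⟩
      · refine List.Nodup.map_on ?_ (hnd.filter _)
        intro x hx y hy hxy
        simp only [List.mem_filter, decide_eq_true_eq] at hx hy
        omega
    have h2 := Finset.sum_le_sum h1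
    simp only [Finset.sum_const, Finset.card_range, smul_eq_mul] at h2
    omega
  · have h1 : ∀ i ∈ Finset.range b,
        1 ≤ runs ((colseq a b V ds).filter (fun c => κ a c = a + i)) := by
      intro i hi
      rw [Finset.mem_range] at hi
      obtain ⟨V', hV'⟩ := mem_colseq a b (7 * a + i) ds V (hall _ (by omega))
      have h2 : gcol a b V' (7 * a + i) = 3 * a + i := by
        unfold gcol
        rw [if_neg (by omega), if_pos (by omega)]
        omega
      rw [h2] at hV'
      refine runs_pos (x := 3 * a + i) ?_
      rw [List.mem_filter]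
      refine ⟨hV', ?_⟩
      unfold κ
      rw [if_neg (by omega)]
      simp only [decide_eq_true_eq]
      omega
    have h2 := Finset.sum_le_sum h1
    simp only [Finset.sum_const, Finset.card_range, smul_eq_mul] at h2
    omega

/-- a vertex as a function on the natural numbers -/
def ext {n : ℕ} (v : Fin n → Bool) (m : ℕ) : Bool := if h : m < n then v ⟨m, h⟩ else false

/-- the direction of the edge `uv` -/
noncomputable def dir {n : ℕ} (u v : Fin n → Bool) : ℕ := sInf {m | ext u m ≠ ext v m}

theorem dir_comm {n : ℕ} (u v : Fin n → Bool) : dir u v = dir v u := by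
  unfold dir
  congr 1
  ext m
  exact ne_comm

theorem gcol_lt (a b : ℕ) (ha : 1 ≤ a) (V : ℕ → Bool) (d : ℕ) : gcol a b V d < 3 * a + b := by
  unfold gcol
  have := F_lt (X (d / 7) V) (Y (d / 7) V) (d % 7)
  split_ifs <;> omega

/-- the colouring -/
noncomputable def col (a b n : ℕ) (ha : 1 ≤ a) : Sym2 (Fin n → Bool) → Fin (3 * a + b) :=
  Sym2.lift ⟨fun u v => ⟨gcol a b (fun m => ext u m && ext v m) (dir u v), gcol_lt a b ha _ _⟩, by
    intro u v
    simp only [dir_comm u v, Bool.and_comm]⟩

theorem adj_iff {n : ℕ} {u v : Fin n → Bool} (h : (Q n).Adj u v) :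
    ∃ i : Fin n, ext v = flipN (ext u) i.val ∧ dir u v = i.val ∧ ∀ j, j ≠ i → u j = v j := by
  have h1 : hammingDist u v = 1 := h
  unfold hammingDist at h1
  obtain ⟨i, hi⟩ := Finset.card_eq_one.1 h1
  have h2 : ∀ j, u j ≠ v j ↔ j = i := by
    intro j
    have : j ∈ Finset.univ.filter (fun j => u j ≠ v j) ↔ j ∈ ({i} : Finset (Fin n)) := by rw [hi]
    simpa using this
  have h3 : ext v = flipN (ext u) i.val := by
    funext m
    unfold flipN ext
    by_cases hm : m < n
    · by_cases hmi : m = i.val
      · subst hmi
        have h4 := (h2 i).2 rfl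
        have h5 : (⟨i.val, hm⟩ : Fin n) = i := rfl
        rw [dif_pos hm, if_pos rfl, dif_pos hm, h5]
        revert h4
        cases u i <;> cases v i <;> simp
      · have h4 : u ⟨m, hm⟩ = v ⟨m, hm⟩ := by
          by_contra h5
          exact hmi (congrArg Fin.val ((h2 _).1 h5))
        rw [dif_pos hm, if_neg hmi, dif_pos hm, h4]
    · have hmi : m ≠ i.val := fun e => hm (e ▸ i.isLt)
      rw [dif_neg hm, if_neg hmi, dif_neg hm]
  refine ⟨i, h3, ?_, ?_⟩
  · unfold dir
    have h4 : {m | ext u m ≠ ext v m} = {i.val} := by
      ext m
      rw [h3]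
      simp only [Set.mem_ofPred_eq, Set.mem_singleton_iff, flipN]
      by_cases hmi : m = i.val
      · simp [hmi]
      · simp [hmi]
    rw [h4]
    exact csInf_singleton _
  · intro j hj
    by_contra h4
    exact hj ((h2 j).1 h4)

theorem gcol_and (a b : ℕ) (V : ℕ → Bool) (d : ℕ) :
    gcol a b (fun m => V m && flipN V d m) d = gcol a b V d := by
  unfold gcol
  by_cases h : d < 7 * a
  · rw [if_pos h, if_pos h]
    by_cases ht : 4 ≤ d % 7
    · rw [F_const ht (X (d / 7) V) (Y (d / 7) V)]
    · have e4 : 7 * (d / 7) + 4 ≠ d := by omega
      have e5 : 7 * (d / 7) + 5 ≠ d := by omega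
      have e6 : 7 * (d / 7) + 6 ≠ d := by omega
      unfold X Y flipN
      simp [e4, e5, e6]
  · rw [if_neg h, if_neg h]

theorem walk_colours (a b n : ℕ) (ha : 1 ≤ a) {u w : Fin n → Bool} (p : (Q n).Walk u w) :
    ∃ ds : List ℕ, ds.length = p.length ∧ (∀ i : Fin n, u i ≠ w i → i.val ∈ ds) ∧
      (p.edges.map (col a b n ha)).map Fin.val = colseq a b (ext u) ds := by
  induction p with
  | nil => exact ⟨[], rfl, fun i hi => absurd rfl hi, rfl⟩
  | @cons u v w h p ih =>
    obtain ⟨ds, h1, h2, h3⟩ := ih
    obtain ⟨i, h4, h5, h6⟩ := adj_iff h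
    refine ⟨i.val :: ds, by simp [h1], ?_, ?_⟩
    · intro j hj
      by_cases hji : j = i
      · subst hji; simp
      · rw [h6 j hji] at hj
        exact List.mem_cons_of_mem _ (h2 j hj)
    · rw [SimpleGraph.Walk.edges_cons, List.map_cons, List.map_cons, h3]
      show _ = gcol a b (ext u) i.val :: colseq a b (flipN (ext u) i.val) ds
      rw [← h4]
      congr 1
      show gcol a b (fun m => ext u m && ext v m) (dir u v) = _
      rw [h5, h4]
      exact gcol_and a b (ext u) i.val

theorem main (a b n : ℕ) (ha : 1 ≤ a) (hn : 7 * a + b ≤ n) (v : Fin n → Bool)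
    (p : (Q n).Walk v (fun i => !v i)) (hp : p.length = n) :
    4 * a + b ≤ changes (p.edges.map (col a b n ha)) + 1 := by
  obtain ⟨ds, h1, h2, h3⟩ := walk_colours a b n ha p
  have h4 : ∀ m < n, m ∈ ds := fun m hm => h2 ⟨m, hm⟩ (by cases v ⟨m, hm⟩ <;> simp)
  have h5 : (List.range n).Subperm ds :=
    List.subperm_of_subset List.nodup_range (fun m hm => h4 m (List.mem_range.1 hm))
  have h6 : (List.range n).Perm ds := h5.perm_of_length_le (by rw [h1, hp, List.length_range])
  have h7 := runs_colseq a b n hn (ext v) ds (h6.nodup_iff.1 List.nodup_range) h4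
  rw [← h3] at h7
  have h8 := changes_map Fin.val_injective (p.edges.map (col a b n ha))
  cases hl : (p.edges.map (col a b n ha)).map Fin.val with
  | nil =>
    rw [hl] at h7
    simp [runs] at h7
    omega
  | cons x l =>
    rw [hl] at h7 h8
    simp only [runs] at h7
    omega

/-- **Colourings whose antipodal geodesics change colour often.** For all `a ≥ 1`, `b ≥ 0` and
`n ≥ 7 a + b` there is a colouring of the edges of `Q_n` with `3 a + b` colours such that every
geodesic path between antipodal vertices (a walk `p` of length `n` from `v` to its antipode; the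
colours of its edges are `p.edges.map c`) has at least `4 a + b - 1` colour changes. With `a = 1`,
`b = r - 3` these are at least `r` colour changes, for every `r ≥ 3` and every `n ≥ r + 4`. -/
theorem result (a b n : ℕ) (ha : 1 ≤ a) (hn : 7 * a + b ≤ n) :
    ∃ c : Sym2 (Fin n → Bool) → Fin (3 * a + b),
      ∀ (v : Fin n → Bool) (p : (Q n).Walk v (fun i => !v i)), p.length = n →
        4 * a + b - 1 ≤ changes (p.edges.map c) := by
  refine ⟨col a b n ha, fun v p hp => ?_⟩
  have := main a b n ha hn v p hp
  omega

end Pool.Agent.Results.MP_49ab16_co.ManyChanges
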